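import Pool.Agent.Q110.AC.Geom

/-!
# Antichains in the unit cube of maximal codimension-one Hausdorff measure (MP_efb25f_co, Q1)

The definitions are in `Pool.Agent.Q110.AC.Defs`. `μH[s]` is the unnormalised `s`-dimensional
Hausdorff measure of Mathlib.
-/

set_option autoImplicit false

namespace Pool.Agent.Results.MP_efb25f_co.MaximalAntichain

open Q110.AC MeasureTheory

/-- For every `n ≥ 2` there is an `n`-cube antichain whose `(n - 1)`-dimensional Hausdorff measure
is exactly `n` times that of a facet of the cube (which is positive and finite). -/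
theorem result (n : ℕ) (hn : 2 ≤ n) :
    ∃ S : Set (EuclideanSpace ℝ (Fin n)), IsCubeAntichain S ∧ ∀ j : Fin n,
      μH[(n : ℝ) - 1] S = (n : ENNReal) * μH[(n : ℝ) - 1] (facet n j) ∧
      0 < μH[(n : ℝ) - 1] (facet n j) ∧ μH[(n : ℝ) - 1] (facet n j) < ⊤ := by
  obtain ⟨m, rfl⟩ : ∃ m, n = m + 1 := ⟨n - 1, by omega⟩
  have h : ((m + 1 : ℕ) : ℝ) - 1 = (m : ℝ) := by push_cast; ring
  rw [h]
  exact main m (by omega)

end Pool.Agent.Results.MP_efb25f_co.MaximalAntichain
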